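import Mathlib
import Pool.Agent.Helper96_LAX.Stmts

/-!
# LAX, module P1B: one class
-/

set_option autoImplicit false

namespace Pool.Agent.LAX.H52

theorem p1b (hGL : GLStmt) : P1BStmt := by
  intro V _ E g L Up hg R U D τ hRE hdeg _ hL hUp hD hτ
  have hζ : L 0 ≤ (⌈L 0⌉₊ : ℝ) := Nat.le_ceil _
  have hcomp : ∀ M : Set (V × V), comp {p : V × V | p.1 = p.2} M = M := by
    intro M
    ext ⟨a, b⟩
    constructor
    · rintro ⟨x, h1, h2⟩
      have h3 : a = x := h1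
      rw [h3]
      exact h2
    · intro h
      exact ⟨a, rfl, h⟩
  obtain ⟨M, h1, h2, h3, h4, h5⟩ := hGL V V Set.univ U Set.univ U R {p : V × V | p.1 = p.2}
    g D (D + τ) ⌈L 0⌉₊ hg (by omega)
    (by
      have h1 : ((D + τ + g : ℕ) : ℝ) ≤ ((D + ⌈L 0⌉₊ + 1 : ℕ) : ℝ) := by
        push_cast
        linarith
      exact_mod_cast h1)
    ⟨fun x y y' h h' => h.symm.trans h', fun x x' y h h' => h.trans h'.symm⟩
    (fun p _ => ⟨Set.mem_univ _, Set.mem_univ _⟩)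
    (fun x _ => ⟨(hdeg x).1.1, (hdeg x).1.2, Nat.ceil_le.2 (hL x).1⟩)
    (fun x _ => ⟨(hdeg x).2.1, (hdeg x).2.2, Nat.ceil_le.2 (hL x).2⟩)
  rw [hcomp] at h3
  refine ⟨fun _ => M, fun _ => U, ?_⟩
  constructor
  · exact fun _ _ => h1
  · exact fun _ _ => h2
  · exact fun _ _ => h3
  · intro i hi j hj hij
    rw [pow_zero] at hi hj
    omega
  · exact fun _ _ => le_refl _
  · intro i hi j hj hij
    rw [pow_zero] at hi hj
    omega
  · exact fun _ _ v hv => ⟨h4 v (Set.mem_univ _) hv, h5 v (Set.mem_univ _) hv⟩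
  · exact fun _ _ v => hUp v

end Pool.Agent.LAX.H52
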