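import Mathlib
import Pool.Agent.Helper96_LAX.Stmts

/-!
# LAX, module P1I: the periods of Phase I
-/

set_option autoImplicit false

namespace Pool.Agent.LAX.H52

/-- The arcs of `E` which are in no `F j`, `j < n`. -/
def rest {V : Type} (E : Set (V × V)) (n : ℕ) (F : ℕ → Set (V × V)) : Set (V × V) :=
  {a | a ∈ E ∧ ∀ j < n, a ∉ F j}

theorem out_split {V : Type} [Finite V] (E : Set (V × V)) (n : ℕ) (F : ℕ → Set (V × V))
    (hs : ∀ j < n, F j ⊆ E) (hp : ∀ j < n, PI (F j))
    (hd : ∀ i < n, ∀ j < n, i ≠ j → Disjoint (F i) (F j)) (v : V) :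
    (out E v).ncard = (out (rest E n F) v).ncard + {j | j < n ∧ v ∈ dom (F j)}.ncard := by
  have h1 : out E v = out (rest E n F) v ∪ {y | ∃ j < n, (v, y) ∈ F j} := by
    ext y
    constructor
    · intro h
      by_cases h2 : ∃ j < n, (v, y) ∈ F j
      · exact Or.inr h2
      · exact Or.inl ⟨h, fun j hj h3 => h2 ⟨j, hj, h3⟩⟩
    · rintro (h | ⟨j, hj, h⟩)
      · exact h.1
      · exact hs j hj h
  have h2 : Disjoint (out (rest E n F) v) {y | ∃ j < n, (v, y) ∈ F j} := by
    rw [Set.disjoint_left]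
    rintro y h ⟨j, hj, h'⟩
    exact h.2 j hj h'
  rw [h1, Set.ncard_union_eq h2 (Set.toFinite _) (Set.toFinite _)]
  congr 1
  symm
  refine Set.ncard_congr (fun j hj => hj.2.choose) ?_ ?_ ?_
  · intro j hj
    exact ⟨j, hj.1, hj.2.choose_spec⟩
  · intro i j hi hj hij
    by_contra hne
    have h3 := hi.2.choose_spec
    have h4 := hj.2.choose_spec
    rw [← hij] at h4
    exact Set.disjoint_left.1 (hd i hi.1 j hj.1 hne) h3 h4
  · rintro y ⟨j, hj, h⟩
    have h3 : j < n ∧ v ∈ dom (F j) := ⟨hj, y, h⟩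
    refine ⟨j, h3, ?_⟩
    exact (hp j hj).1 _ _ _ h3.2.choose_spec h

theorem inn_split {V : Type} [Finite V] (E : Set (V × V)) (n : ℕ) (F : ℕ → Set (V × V))
    (hs : ∀ j < n, F j ⊆ E) (hp : ∀ j < n, PI (F j))
    (hd : ∀ i < n, ∀ j < n, i ≠ j → Disjoint (F i) (F j)) (v : V) :
    (inn E v).ncard = (inn (rest E n F) v).ncard + {j | j < n ∧ v ∈ ran (F j)}.ncard := by
  have h1 := out_split (rv E) n (fun j => rv (F j)) (fun j hj p hp => hs j hj hp)
    (fun j hj => ⟨fun x y y' h h' => (hp j hj).2 _ _ _ h h', fun x x' y h h' =>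
      (hp j hj).1 _ _ _ h h'⟩)
    (fun i hi j hj hij => by
      rw [Set.disjoint_left]
      intro p hp hp'
      exact Set.disjoint_left.1 (hd i hi j hj hij) hp hp') v
  exact h1

theorem few_ge {n p : ℕ} {A B : ℕ → Prop} (h : ∀ j < n, ¬ A j → B j)
    (hA : {j | j < n ∧ A j}.ncard ≤ p) : n ≤ {j | j < n ∧ B j}.ncard + p ∧
    {j | j < n ∧ B j}.ncard ≤ n := by
  have hf : {j | j < n}.Finite := Set.finite_lt_nat n
  have hn : {j | j < n}.ncard = n := by
    have h0 : {j | j < n} = ((Finset.range n : Finset ℕ) : Set ℕ) := by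
      ext j
      simp
    rw [h0, Set.ncard_coe_finset, Finset.card_range]
  have h1 : {j | j < n} ⊆ {j | j < n ∧ B j} ∪ {j | j < n ∧ A j} := by
    intro j hj
    by_cases h2 : A j
    · exact Or.inr ⟨hj, h2⟩
    · exact Or.inl ⟨hj, h j hj h2⟩
  have hf1 : {j | j < n ∧ B j}.Finite := hf.subset fun j hj => hj.1
  have hf2 : {j | j < n ∧ A j}.Finite := hf.subset fun j hj => hj.1
  constructor
  · have h2 := Set.ncard_le_ncard h1 (hf1.union hf2)
    have h3 := Set.ncard_union_le {j | j < n ∧ B j} {j | j < n ∧ A j}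
    omega
  · have h2 : {j | j < n ∧ B j} ⊆ {j | j < n} := fun j hj => hj.1
    have h3 := Set.ncard_le_ncard h2 hf
    omega

/-- One period. -/
theorem step {V : Type} [Finite V] (E : Set (V × V)) (k g u : ℕ) (L Up : ℕ → ℝ) (I : ℕ)
    (hE : Reg E k) (hPH : PH1 E g L Up I) (hL0 : 2 * (g : ℝ) ≤ L 0 + 1)
    (hLI : L I + (g * 2 ^ I : ℕ) ≤ k) (hk : (k : ℝ) ≤ Up I) (hu : Up 0 ≤ u)
    (hgk : g * 2 ^ I + g ≤ k) (p : ℕ) (hp : p + 1 ≤ g) (F : ℕ → Set (V × V)) (Z : ℕ → Set V)
    (hC : Cls E g (p * 2 ^ I) u p F Z) :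
    ∃ (F : ℕ → Set (V × V)) (Z : ℕ → Set V), Cls E g ((p + 1) * 2 ^ I) u (p + 1) F Z := by
  have hq : (p + 1) * 2 ^ I = p * 2 ^ I + 2 ^ I := by ring
  have hpg : (p + 1) * 2 ^ I ≤ g * 2 ^ I := Nat.mul_le_mul_right _ hp
  have hpg' : p * 2 ^ I ≤ g * 2 ^ I := Nat.mul_le_mul_right _ (by omega)
  have hout : ∀ v, (out (rest E (p * 2 ^ I) F) v).ncard + p * 2 ^ I ≤ k + p ∧
      k ≤ (out (rest E (p * 2 ^ I) F) v).ncard + p * 2 ^ I := by
    intro v
    have h1 := out_split E (p * 2 ^ I) F hC.sub hC.pi hC.disj v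
    rw [(hE v).1] at h1
    have h2 := few_ge (n := p * 2 ^ I) (p := p) (A := fun j => v ∈ Z j)
      (B := fun j => v ∈ dom (F j)) (fun j hj h => (hC.cov j hj v h).1) (hC.few v)
    omega
  have hinn : ∀ v, (inn (rest E (p * 2 ^ I) F) v).ncard + p * 2 ^ I ≤ k + p ∧
      k ≤ (inn (rest E (p * 2 ^ I) F) v).ncard + p * 2 ^ I := by
    intro v
    have h1 := inn_split E (p * 2 ^ I) F hC.sub hC.pi hC.disj v
    rw [(hE v).2] at h1
    have h2 := few_ge (n := p * 2 ^ I) (p := p) (A := fun j => v ∈ Z j)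
      (B := fun j => v ∈ ran (F j)) (fun j hj h => (hC.cov j hj v h).2) (hC.few v)
    omega
  have hL : ∀ m : ℕ, k ≤ m + p * 2 ^ I → L I ≤ (m : ℝ) := by
    intro m hm
    have h1 : ((k : ℕ) : ℝ) ≤ ((m + g * 2 ^ I : ℕ) : ℝ) := by
      have : k ≤ m + g * 2 ^ I := by omega
      exact_mod_cast this
    push_cast at h1 hLI
    linarith
  obtain ⟨F', Z', hG⟩ := hPH (rest E (p * 2 ^ I) F) Set.univ (k - p * 2 ^ I) (p + 1)
    (fun a ha => ha.1)
    (fun v => by
      have h1 := hout v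
      have h2 := hinn v
      omega)
    (fun v _ => by
      have h1 := hout v
      have h2 := hinn v
      omega)
    (fun v => by
      rw [Set.inter_univ, Set.inter_univ]
      exact ⟨hL _ (hout v).2, hL _ (hinn v).2⟩)
    (fun v => by
      rw [Set.inter_univ, Set.inter_univ, (hE v).1, (hE v).2]
      exact ⟨hk, hk⟩)
    (by omega)
    (by
      have h1 : ((p : ℝ) + 1) ≤ g := by exact_mod_cast hp
      push_cast
      linarith)
  refine ⟨fun j => if j < p * 2 ^ I then F j else F' (j - p * 2 ^ I),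
    fun j => if j < p * 2 ^ I then Z j else Z' (j - p * 2 ^ I), ?_⟩
  have hlt : ∀ j, j < (p + 1) * 2 ^ I → ¬ j < p * 2 ^ I → j - p * 2 ^ I < 2 ^ I := by
    intro j hj hj'
    omega
  have hdis : ∀ i < p * 2 ^ I, ∀ j < 2 ^ I, Disjoint (F i) (F' j) := by
    intro i hi j hj
    rw [Set.disjoint_left]
    intro a ha ha'
    exact (hG.sub j hj ha').2 i hi ha
  constructor
  · intro j hj
    by_cases h : j < p * 2 ^ I
    · simp only [h, if_true]
      exact hC.sub j h
    · simp only [h, if_false]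
      exact (hG.sub _ (hlt j hj h)).trans fun a ha => ha.1
  · intro j hj
    by_cases h : j < p * 2 ^ I
    · simp only [h, if_true]
      exact hC.pi j h
    · simp only [h, if_false]
      exact hG.pi _ (hlt j hj h)
  · intro j hj
    by_cases h : j < p * 2 ^ I
    · simp only [h, if_true]
      exact hC.cw j h
    · simp only [h, if_false]
      exact hG.cw _ (hlt j hj h)
  · intro i hi j hj hij
    by_cases h : i < p * 2 ^ I <;> by_cases h' : j < p * 2 ^ I
    · simp only [h, h', if_true]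
      exact hC.disj i h j h' hij
    · simp only [h, h', if_true, if_false]
      exact hdis i h _ (hlt j hj h')
    · simp only [h, h', if_true, if_false]
      exact (hdis j h' _ (hlt i hi h)).symm
    · simp only [h, h', if_false]
      exact hG.disj _ (hlt i hi h) _ (hlt j hj h') (by omega)
  · intro j hj v hv
    by_cases h : j < p * 2 ^ I
    · simp only [h, if_true] at hv ⊢
      exact hC.cov j h v hv
    · simp only [h, if_false] at hv ⊢
      exact hG.cov _ (hlt j hj h) v hv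
  · intro v
    have hf1 : {c | c < p * 2 ^ I ∧ v ∈ Z c}.Finite :=
      (Set.finite_lt_nat (p * 2 ^ I)).subset fun j hj => hj.1
    have hf2 : {c | p * 2 ^ I ≤ c ∧ c < (p + 1) * 2 ^ I ∧ v ∈ Z' (c - p * 2 ^ I)}.Finite :=
      (Set.finite_lt_nat ((p + 1) * 2 ^ I)).subset fun j hj => hj.2.1
    have h1 : {c | c < (p + 1) * 2 ^ I ∧
        v ∈ (if c < p * 2 ^ I then Z c else Z' (c - p * 2 ^ I))} ⊆
        {c | c < p * 2 ^ I ∧ v ∈ Z c} ∪
          {c | p * 2 ^ I ≤ c ∧ c < (p + 1) * 2 ^ I ∧ v ∈ Z' (c - p * 2 ^ I)} := by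
      rintro c ⟨hc1, hc2⟩
      by_cases h : c < p * 2 ^ I
      · rw [if_pos h] at hc2
        exact Or.inl ⟨h, hc2⟩
      · rw [if_neg h] at hc2
        exact Or.inr ⟨not_lt.1 h, hc1, hc2⟩
    have h2 : {c | p * 2 ^ I ≤ c ∧ c < (p + 1) * 2 ^ I ∧ v ∈ Z' (c - p * 2 ^ I)}.ncard ≤ 1 := by
      rw [Set.ncard_le_one hf2]
      rintro a ⟨ha1, ha2, ha3⟩ b ⟨hb1, hb2, hb3⟩
      by_contra hne
      exact Set.disjoint_left.1 (hG.zdisj (a - p * 2 ^ I) (by omega) (b - p * 2 ^ I) (by omega)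
        (by omega)) ha3 hb3
    have h3 := Set.ncard_le_ncard h1 (hf1.union hf2)
    have h4 := Set.ncard_union_le {c | c < p * 2 ^ I ∧ v ∈ Z c}
      {c | p * 2 ^ I ≤ c ∧ c < (p + 1) * 2 ^ I ∧ v ∈ Z' (c - p * 2 ^ I)}
    have h5 := hC.few v
    omega
  · intro j hj v
    by_cases h : j < p * 2 ^ I
    · simp only [h, if_true]
      exact hC.sm j h v
    · simp only [h, if_false]
      have h1 := hG.sm _ (hlt j hj h) v
      constructor
      · exact_mod_cast h1.1.trans hu
      · exact_mod_cast h1.2.trans hu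

theorem p1i : P1IStmt := by
  intro V _ E k g u L Up I _ hE hPH hL0 hLI hk hu hgk
  have key : ∀ p : ℕ, p ≤ g → ∃ (F : ℕ → Set (V × V)) (Z : ℕ → Set V),
      Cls E g (p * 2 ^ I) u p F Z := by
    intro p
    induction p with
    | zero =>
      intro _
      refine ⟨fun _ => ∅, fun _ => ∅, ?_⟩
      have h0 : ∀ c : ℕ, ¬ c < 0 * 2 ^ I := by
        intro c
        rw [zero_mul]
        exact Nat.not_lt_zero c
      constructor
      · exact fun c hc => absurd hc (h0 c)
      · exact fun c hc => absurd hc (h0 c)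
      · exact fun c hc => absurd hc (h0 c)
      · exact fun c hc => absurd hc (h0 c)
      · exact fun c hc => absurd hc (h0 c)
      · intro v
        have h1 : {c : ℕ | c < 0 * 2 ^ I ∧ v ∈ (∅ : Set V)} = ∅ := by
          ext c
          simp
        exact le_of_eq (by rw [h1, Set.ncard_empty])
      · exact fun c hc => absurd hc (h0 c)
    | succ p ih =>
      intro hp
      obtain ⟨F, Z, hC⟩ := ih (by omega)
      exact step E k g u L Up I hE hPH hL0 hLI hk hu hgk p hp F Z hC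
  exact key g le_rfl

end Pool.Agent.LAX.H52
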